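import Pool.Agent.Helper5.LCU.Stmts

/-! Row MG1 of the project LCU (MP_e96806_co): gluing along a clique, the product formula. -/

set_option autoImplicit false

open Finset Pool.Agent.Helper89.UB Pool.Agent.Helper5.LCU

namespace Pool.Agent.Helper80.LCU

theorem st_MG1 (hTP : ST_TP) (hGL : ST_GL) (hSH : ST_SH) (hTPR : ST_TPR) (hTUN : ST_TUN)
    (hTSH : ST_TSH) (hLOW : ST_LOW) (hCOR : ST_COR) (hPR : ST_PR) : ST_MG1 := by
  intro n E A B r t w hE hcl hsep hr hrt htw hA hB hAB sA sB
  have e1 : sq E A r = fun j => if j < t - r then 0 else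
      (j.descFactorial (t - r) : ℝ) * sq E A t (j - (t - r)) := by
    funext j
    split_ifs with h
    · unfold Pool.Agent.Helper5.LCU.sq
      rw [hA (r + j) (by omega)]
      simp
    · push Not at h
      unfold Pool.Agent.Helper5.LCU.sq
      have e2 : t + (j - (t - r)) = r + j := by omega
      rw [e2]
      have e3 : (j.descFactorial (t - r) : ℝ) * ((j - (t - r)).factorial : ℝ) =
          (j.factorial : ℝ) := by
        rw [mul_comm]
        exact_mod_cast Nat.factorial_mul_descFactorial h
      rw [← e3]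
      ring
  have s1 : SLC (sq E A r) := by
    rw [e1]
    exact hLOW _ sA (t - r)
  have sh : ∀ a : ℕ → ℝ, SLC a → SLC (fun i => a i + a (i + 1)) := by
    intro a ha
    have := hCOR (fun _ => 1) a ⟨fun _ => zero_le_one, fun _ _ _ => le_rfl⟩ ha 2
    simpa [Finset.sum_range_succ] using this
  have it : ∀ s : ℕ, ∀ a : ℕ → ℝ, SLC a → ∃ a' : ℕ → ℝ, SLC a' ∧ ∀ y, TT a (y + s) = TT a' y := by
    intro s
    induction s with
    | zero => intro a ha; exact ⟨a, ha, fun y => rfl⟩
    | succ s ih =>
      intro a ha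
      obtain ⟨a', h1, h2⟩ := ih _ (sh a ha)
      refine ⟨a', h1, fun y => ?_⟩
      rw [← h2, ← hTSH]
      rfl
  obtain ⟨a', ha', hT⟩ := it (w - r) _ s1
  have key : ∀ y, TT (sq E (A ∪ B) w) y = TT a' y * TT (sq E B w) y := by
    intro y
    have g := hGL n E A B hcl hsep (y + w)
    rw [hr] at g
    have g' : TT (fun m => (sur E (A ∪ B) m : ℝ)) (y + w) * ((y + w).descFactorial r : ℝ) =
        TT (fun m => (sur E A m : ℝ)) (y + w) * TT (fun m => (sur E B m : ℝ)) (y + w) := by
      rw [← hTP n E hE, ← hTP n E hE, ← hTP n E hE]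
      exact_mod_cast g
    have c1 : TT (fun m => (sur E (A ∪ B) m : ℝ)) (y + w) =
        ((y + w).descFactorial w : ℝ) * TT (sq E (A ∪ B) w) y :=
      hSH (fun m => (sur E (A ∪ B) m : ℝ)) w y (fun m hm => by simp [hAB m hm])
    have c2 : TT (fun m => (sur E B m : ℝ)) (y + w) =
        ((y + w).descFactorial w : ℝ) * TT (sq E B w) y :=
      hSH (fun m => (sur E B m : ℝ)) w y (fun m hm => by simp [hB m hm])
    have c3 : TT (fun m => (sur E A m : ℝ)) (y + (w - r) + r) =
        ((y + (w - r) + r).descFactorial r : ℝ) * TT (sq E A r) (y + (w - r)) :=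
      hSH (fun m => (sur E A m : ℝ)) r (y + (w - r))
        (fun m hm => by simp [hA m (by omega)])
    have e4 : y + (w - r) + r = y + w := by omega
    rw [e4, hT] at c3
    have d1 : (0 : ℝ) < ((y + w).descFactorial w : ℝ) := by
      exact_mod_cast Nat.descFactorial_pos.2 (by omega)
    have d2 : (0 : ℝ) < ((y + w).descFactorial r : ℝ) := by
      exact_mod_cast Nat.descFactorial_pos.2 (by omega)
    rw [c1, c2, c3] at g'
    have d3 : (((y + w).descFactorial w : ℝ) * ((y + w).descFactorial r : ℝ)) *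
        TT (sq E (A ∪ B) w) y = (((y + w).descFactorial w : ℝ) * ((y + w).descFactorial r : ℝ)) *
          (TT a' y * TT (sq E B w) y) := by linarith
    exact mul_left_cancel₀ (by positivity) d3
  have fin : sq E (A ∪ B) w = fun m => GA a' (sq E B w) m 0 0 :=
    hTUN _ _ fun q => by rw [key, hTPR]
  rw [fin]
  exact hPR _ _ ha' sB

end Pool.Agent.Helper80.LCU
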